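import Pool.Agent.H9.SF.FDefs

/-! Modules FM, FN, FP: generic filters over countable models, minimality of the generic
extension, forcing equals truth in all generic extensions. -/

set_option linter.unusedVariables false

open Ordinal
open scoped ZFSet

namespace SF.H20

open SF

theorem fm : T_FM := by
  intro M c r p hM hP hp
  classical
  -- a sequence of all dense sets of the model (or of `c` itself)
  have hcnt : ({x | M x ∧ IsDense c r x} ∪ {c}).Countable :=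
    ((hM.mono fun x hx => hx.1)).union (Set.countable_singleton c)
  obtain ⟨D, hD⟩ := hcnt.exists_eq_range ⟨c, Or.inr rfl⟩
  have hDd : ∀ n, IsDense c r (D n) := by
    intro n
    have h1 : D n ∈ ({x | M x ∧ IsDense c r x} ∪ {c} : Set V) := hD ▸ Set.mem_range_self n
    rcases h1 with h1 | h1
    · exact h1.2
    · rw [Set.mem_singleton_iff] at h1
      rw [h1]
      exact ⟨fun x hx => hx, fun q hq => ⟨q, hq, hP.refl q hq⟩⟩
  -- the descending sequence
  have step : ∀ (n : ℕ) (q : {q // q ∈ c}), ∃ d : {q // q ∈ c}, d.1 ∈ D n ∧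
      ZFSet.pair d.1 q.1 ∈ r := by
    intro n q
    obtain ⟨d, hd, hdr⟩ := (hDd n).2 q.1 q.2
    exact ⟨⟨d, (hDd n).1 hd⟩, hd, hdr⟩
  choose F hF1 hF2 using step
  let s : ℕ → {q // q ∈ c} := fun n => Nat.rec ⟨p, hp⟩ (fun n q => F n q) n
  have hs0 : (s 0).1 = p := rfl
  have hs1 : ∀ n, (s (n + 1)).1 ∈ D n := fun n => hF1 n (s n)
  have hs2 : ∀ n, ZFSet.pair (s (n + 1)).1 (s n).1 ∈ r := fun n => hF2 n (s n)
  have hmono : ∀ n m, n ≤ m → ZFSet.pair (s m).1 (s n).1 ∈ r := by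
    intro n m h
    induction m, h using Nat.le_induction with
    | base => exact hP.refl _ (s n).2
    | succ m h ih => exact hP.trans _ _ _ (hs2 m) ih
  have hc2 : ∀ x y, ZFSet.pair x y ∈ r → y ∈ c := by
    intro x y h
    obtain ⟨a, ha, b, hb, hab⟩ := hP.sub _ h
    have := (ZFSet.pair_injective hab).2
    rw [this]
    exact hb
  refine ⟨c.sep fun q => ∃ n, ZFSet.pair (s n).1 q ∈ r, ⟨⟨?_, ?_, ?_, ?_⟩, ?_⟩, ?_⟩
  · intro x hx
    exact (ZFSet.mem_sep.1 hx).1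
  · exact ⟨p, ZFSet.mem_sep.2 ⟨hp, 0, hs0 ▸ hP.refl p hp⟩⟩
  · intro a ha q hq
    obtain ⟨-, n, hn⟩ := ZFSet.mem_sep.1 ha
    exact ZFSet.mem_sep.2 ⟨hc2 _ _ hq, n, hP.trans _ _ _ hn hq⟩
  · intro a ha b hb
    obtain ⟨-, n, hn⟩ := ZFSet.mem_sep.1 ha
    obtain ⟨-, m, hm⟩ := ZFSet.mem_sep.1 hb
    refine ⟨(s (max n m)).1, ZFSet.mem_sep.2 ⟨(s _).2, max n m, hP.refl _ (s _).2⟩, ?_, ?_⟩
    · exact hP.trans _ _ _ (hmono n _ (le_max_left n m)) hn
    · exact hP.trans _ _ _ (hmono m _ (le_max_right n m)) hm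
  · intro E hE hEd
    have h1 : E ∈ Set.range D := hD ▸ Or.inl ⟨hE, hEd⟩
    obtain ⟨n, hn⟩ := h1
    exact ⟨(s (n + 1)).1, ZFSet.mem_sep.2 ⟨(s (n + 1)).2, n + 1, hP.refl _ (s (n + 1)).2⟩,
      hn ▸ hs1 n⟩
  · exact ZFSet.mem_sep.2 ⟨hp, 0, hs0 ▸ hP.refl p hp⟩

theorem fn : T_FN := by
  intro M M' G k hsub hG y hy
  obtain ⟨x, hx, rfl⟩ := hy
  have h1 := (Tm.val (Tm.var 0) (Tm.var 1)).1 M' k (cons G fun _ => x) (by
    intro i
    cases i with
    | zero => exact hG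
    | succ n => exact hsub x hx)
  exact h1

theorem fp (hFD : T_FD) (hFG : T_FG) (hFM : T_FM) : T_FP := by
  intro M c r k hM hc hr hP φ v hv p hp
  constructor
  · intro h G hG hpG
    exact (hFG M c r G k hc hr hP hG φ v hv).2 ⟨p, hpG, h⟩
  · intro h
    by_contra hcon
    have h1 : ¬ ∀ q, ZFSet.pair q p ∈ r → ∃ q', ZFSet.pair q' q ∈ r ∧ frc M r φ v q' :=
      fun h2 => hcon ((hFD M c r hP φ v).2 p hp h2)
    simp only [not_forall, not_exists, not_and] at h1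
    obtain ⟨q, hq, hq2⟩ := h1
    have hqc : q ∈ c := by
      obtain ⟨a, ha, b, hb, hab⟩ := hP.sub _ hq
      rw [(ZFSet.pair_injective hab).1]
      exact ha
    obtain ⟨G, hG, hqG⟩ := hFM M c r q hM hP hqc
    have hpG : p ∈ G := hG.1.up q hqG p hq
    have h3 := h G hG hpG
    have h4 : Sat (Ext M G) (.neg φ) (fun i => val G (v i)) :=
      (hFG M c r G k hc hr hP hG (.neg φ) v hv).2 ⟨q, hqG, fun q' hq' => hq2 q' hq'⟩
    exact h4 h3

end SF.H20
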