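import Pool.Agent.H45.SF.UT

/-! Modules UP, UO, DN: the order of sets, the least object, the algebra of the elements
below `t`. -/

set_option linter.unusedVariables false
set_option linter.unusedSectionVars false

open Ordinal Cardinal Order Set
open scoped ZFSet

namespace SF.H20

open SF

theorem up (hUA : T_UA) : T_UP := by
  obtain ⟨-, hinj, hrefl, htr, -⟩ := hUA
  refine ⟨?_, ?_, ?_, ?_⟩
  · intro c c'
    constructor
    · rintro ⟨d, d', h1, h2, h3⟩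
      have e1 := hinj _ _ h1
      have e2 := hinj _ _ h2
      subst e1 e2
      exact h3
    · intro h
      exact ⟨c, c', rfl, rfl, h⟩
  · intro c
    exact ⟨c, c, rfl, rfl, _, hrefl c⟩
  · rintro u v w ⟨c1, c2, rfl, h2, h, h3⟩ ⟨d2, c3, h4, rfl, k, h5⟩
    have e := hinj c2 d2 (h2.symm.trans h4)
    subst e
    exact ⟨c1, c3, rfl, rfl, _, htr c1 c2 c3 k h h5 h3⟩
  · intro κ
    have key : ∀ u, u ∈ UU κ ↔ ∃ c : Cd, u = c.code ∧ c.code ∈ V_ κ := by
      intro u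
      unfold UU
      rw [ZFSet.mem_sep]
      constructor
      · rintro ⟨h1, c, rfl⟩
        exact ⟨c, rfl, h1⟩
      · rintro ⟨c, rfl, h1⟩
        exact ⟨h1, c, rfl⟩
    refine ⟨?_, key⟩
    intro u hu
    obtain ⟨c, rfl, -⟩ := (key u).1 hu
    exact ⟨c, c, rfl, rfl, _, hrefl c⟩

theorem empty_mem_P0 : (∅ : V) ∈ P0 := by
  have h0 : (0 : Ordinal.{0}) < Ordinal.omega.{0} 1 := Ordinal.omega_pos 1
  unfold P0
  rw [ZFSet.mem_sep]
  constructor
  · rw [ZFSet.mem_vonNeumann, ZFSet.rank_empty]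
    exact h0
  · refine ⟨0, fun _ => ∅, h0, fun β hβ => (not_lt_zero hβ).elim, ?_⟩
    ext z
    constructor
    · intro h
      exact (ZFSet.notMem_empty _ h).elim
    · intro h
      obtain ⟨β, -⟩ := ZFSet.mem_range.1 h
      exact (not_lt_zero (Set.mem_Iio.1 β.2)).elim

theorem B0_nontriv : (⊤ : El B0) ≠ ⊥ := by
  intro h
  have h1 : P0 ∈ B0 := by
    refine mem_RO.2 ⟨fun z hz => hz, fun p hp q hq _ => hq, fun p hp _ => hp⟩
  have h2 : (⟨P0, h1⟩ : El B0) ≤ ⊥ := h ▸ le_top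
  have h3 := El.le_iff.1 h2
  rw [El.bot_val] at h3
  exact ZFSet.notMem_empty _ (h3 empty_mem_P0)

theorem good_res_id (hG2 : T_G2) (A : BA) (c : El A.B) : Good ((BMor.id A).res c) := by
  refine hG2 _ _ _ fun d hd => ⟨d, ?_⟩
  have h1 : d ≤ ⊤ ⊓ c := hd
  show d ⊓ c = d
  exact inf_eq_left.2 (h1.trans inf_le_right)

theorem uo (hUA : T_UA) (hMB : T_MB) (hG1 : T_G1) (hG2 : T_G2) : T_UO := by
  refine ⟨B0_nontriv, ?_⟩
  have hgood : Good (bas BA0) := hG2 _ _ _ fun c _ => ⟨c, rfl⟩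
  refine ⟨⟨BA0, 0, fun _ => ⊥, fun _ _ => rfl, hgood, ?_⟩, rfl, rfl, ?_⟩
  · intro C h k h1 _ x
    have e1 := h.base x
    have e2 := k.base x
    have e3 : h.f x = C.g x ⊓ h.f ⊤ := e1
    have e4 : k.f x = C.g x ⊓ k.f ⊤ := e2
    show h.f x = k.f x
    rw [e3, e4]
    have h1' : h.f ⊤ = k.f ⊤ := h1
    rw [h1']
  · intro c hne
    have htop : c.v.A.g ⊤ ⊓ c.x = c.x := by rw [c.v.A.unit, top_inf_eq]
    refine ⟨(bas c.v.A).res c.x, ⟨zero_le, ?_, htop, ?_, htop⟩, ?_⟩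
    · exact hG1 _ _ _ (bas c.v.A) ((BMor.id c.v.A).res c.x) c.v.good (good_res_id hG2 _ _)
    · intro ξ hξ
      exact (not_lt_zero hξ).elim
    · intro x y hxy
      have e : x = y := El.ext hxy
      show c.v.A.g x ⊓ c.x = _
      rw [e]

/-- the interval of all elements below `t` -/
@[reducible] noncomputable def iicCBA {α : Type*} [CompleteBooleanAlgebra α] (t : α) :
    CompleteBooleanAlgebra (Set.Iic t) :=
  { (inferInstance : CompleteLattice (Set.Iic t)) with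
    compl := fun x => ⟨x.1ᶜ ⊓ t, inf_le_right⟩
    sdiff := fun x y => ⟨x.1 ⊓ (y.1ᶜ ⊓ t), inf_le_right.trans inf_le_right⟩
    himp := fun x y => ⟨y.1 ⊔ (x.1ᶜ ⊓ t), sup_le y.2 inf_le_right⟩
    le_sup_inf := by
      intro x y z
      show (x.1 ⊔ y.1) ⊓ (x.1 ⊔ z.1) ≤ x.1 ⊔ y.1 ⊓ z.1
      exact le_sup_inf
    inf_compl_le_bot := by
      intro x
      show x.1 ⊓ (x.1ᶜ ⊓ t) ≤ ⊥
      rw [← inf_assoc, inf_compl_self, bot_inf_eq]
    top_le_sup_compl := by
      intro x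
      show t ≤ x.1 ⊔ (x.1ᶜ ⊓ t)
      rw [sup_inf_left, sup_compl_eq_top, top_inf_eq]
      exact le_sup_right
    sdiff_eq := fun x y => rfl
    himp_eq := fun x y => rfl }

theorem isCBA_sep {B : V} [h : IsCBA B] (t : El B) : IsCBA (B.sep (· ⊆ t.val)) := by
  let e : El (B.sep (· ⊆ t.val)) ≃ Set.Iic t :=
    { toFun := fun x => ⟨⟨x.val, (ZFSet.mem_sep.1 x.mem).1⟩,
        El.le_iff.2 (ZFSet.mem_sep.1 x.mem).2⟩
      invFun := fun y => ⟨y.1.val, ZFSet.mem_sep.2 ⟨y.1.mem, El.le_iff.1 y.2⟩⟩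
      left_inv := fun x => rfl
      right_inv := fun y => rfl }
  let _ : CompleteBooleanAlgebra (Set.Iic t) := iicCBA t
  refine ⟨⟨pullCBA e, ?_⟩, ?_, ?_⟩
  · intro x y
    show (e x).1 ≤ (e y).1 ↔ _
    exact El.le_iff
  · exact ZFSet.mem_sep.2 ⟨h.bot, ZFSet.empty_subset _⟩
  · intro x hx y hy
    obtain ⟨x1, x2⟩ := ZFSet.mem_sep.1 hx
    obtain ⟨y1, y2⟩ := ZFSet.mem_sep.1 hy
    exact ZFSet.mem_sep.2 ⟨h.inter _ x1 _ y1, fun z hz => x2 (ZFSet.mem_inter.1 hz).1⟩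

section

variable {B : V} [h : IsCBA B] (t : El B) [h' : IsCBA (B.sep (· ⊆ t.val))]

/-- inclusion -/
def jn (y : El (B.sep (· ⊆ t.val))) : El B := ⟨y.val, (ZFSet.mem_sep.1 y.mem).1⟩

theorem jn_le {y y' : El (B.sep (· ⊆ t.val))} : jn t y ≤ jn t y' ↔ y ≤ y' := by
  rw [El.le_iff, El.le_iff]
  rfl

theorem jn_le_t (y : El (B.sep (· ⊆ t.val))) : jn t y ≤ t :=
  El.le_iff.2 (ZFSet.mem_sep.1 y.mem).2

/-- restriction -/
noncomputable def rn' (x : El B) : El (B.sep (· ⊆ t.val)) :=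
  ⟨(x ⊓ t).val, ZFSet.mem_sep.2 ⟨(x ⊓ t).mem, El.le_iff.1 inf_le_right⟩⟩

theorem jn_rn (x : El B) : jn t (rn' t x) = x ⊓ t := rfl

theorem rn_jn (y : El (B.sep (· ⊆ t.val))) : rn' t (jn t y) = y := by
  apply El.ext
  show (jn t y ⊓ t).val = y.val
  rw [inf_eq_left.2 (jn_le_t t y)]
  rfl

theorem rn_mono {x x' : El B} (hx : x ≤ x') : rn' t x ≤ rn' t x' := by
  rw [← jn_le t, jn_rn, jn_rn]
  exact inf_le_inf_right _ hx

/-- the restriction as a morphism -/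
noncomputable def rMor : Mor B (B.sep (· ⊆ t.val)) where
  f := rn' t
  inf x y := by
    apply El.ext
    rw [El.inf_val]
    show (x ⊓ y ⊓ t).val = (x ⊓ t).val ∩ (y ⊓ t).val
    rw [inf_inf_distrib_right, El.inf_val]
  sup S := by
    apply le_antisymm
    · rw [← jn_le t, jn_rn, sSup_inf_eq]
      refine iSup₂_le fun a ha => ?_
      have h1 : rn' t a ≤ sSup (rn' t '' S) := le_sSup ⟨a, ha, rfl⟩
      exact (jn_le t).2 h1
    · refine sSup_le ?_
      rintro _ ⟨a, ha, rfl⟩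
      exact rn_mono t (le_sSup ha)

/-- the inclusion as a morphism -/
noncomputable def jMor : Mor (B.sep (· ⊆ t.val)) B where
  f := jn t
  inf x y := by
    apply El.ext
    rw [El.inf_val]
    show (x ⊓ y).val = x.val ∩ y.val
    rw [El.inf_val]
  sup S := by
    apply le_antisymm
    · have h1 : sSup (jn t '' S) ≤ t := by
        refine sSup_le ?_
        rintro _ ⟨y, -, rfl⟩
        exact jn_le_t t y
      have h2 : jn t (rn' t (sSup (jn t '' S))) = sSup (jn t '' S) := by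
        rw [jn_rn, inf_eq_left.2 h1]
      rw [← h2, jn_le t]
      refine sSup_le fun y hy => ?_
      rw [← jn_le t, h2]
      exact le_sSup ⟨y, hy, rfl⟩
    · refine sSup_le ?_
      rintro _ ⟨y, hy, rfl⟩
      exact (jn_le t).2 (le_sSup hy)

theorem rMor_top : (rMor t) ⊤ = ⊤ := by
  apply le_antisymm le_top
  show ⊤ ≤ rn' t ⊤
  rw [← jn_le t, jn_rn, top_inf_eq]
  exact jn_le_t t _

theorem jMor_top : (jMor t) ⊤ = t := by
  have h1 : (jMor t) ((rMor t) ⊤) = ⊤ ⊓ t := rfl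
  rw [rMor_top, top_inf_eq] at h1
  exact h1

end

theorem dn (hMB : T_MB) (hG2 : T_G2) : T_DN := by
  intro A t
  have hc : IsCBA (A.B.sep (· ⊆ t.val)) := isCBA_sep t
  let D : BA :=
    { B := A.B.sep (· ⊆ t.val)
      g := A.g.comp (rMor t)
      unit := by
        show (rMor t) (A.g ⊤) = ⊤
        rw [A.unit, rMor_top] }
  let r : BMor A D :=
    { toMor := rMor t
      base := fun x => by
        show (rMor t) (A.g x) = (rMor t) (A.g x) ⊓ (rMor t) ⊤
        rw [rMor_top, inf_top_eq] }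
  let i : BMor D A :=
    { toMor := jMor t
      base := fun x => by
        show (jMor t) ((rMor t) (A.g x)) = A.g x ⊓ (jMor t) ⊤
        rw [jMor_top]
        rfl }
  have hri : ∀ y, r (i y) = y := fun y => rn_jn t y
  have hir : ∀ x, i (r x) = x ⊓ t := fun x => rfl
  refine ⟨D, r, i, rfl, rMor_top t, jMor_top t, hir, hri, ?_, ?_⟩
  · exact hG2 _ _ _ fun c _ => ⟨i c, hri c⟩
  · refine hG2 _ _ _ fun c hcc => ⟨r c, ?_⟩
    rw [hir]
    have h1 : c ≤ t := by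
      have h2 : i ⊤ = t := jMor_top t
      rw [← h2]
      exact hcc
    exact inf_eq_left.2 h1

end SF.H20
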