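import Pool.Agent.H72.SF.VT

/-! Module VG: the extension of the elementary map to the generic extensions. -/

set_option linter.unusedVariables false

open Ordinal
open scoped ZFSet

namespace SF.H20

open SF

theorem vg (hVE : T_VE) (hVF : T_VF) (hFO : T_FO) (hFI : T_FI) (hFJ : T_FJ) (hFL : T_FL)
    (hLHE : T_LHE) (hLET : T_LET) (hWF : T_WF) (hWG : T_WG) : T_VG := by
  intro S
  obtain ⟨⟨mB', -⟩, ⟨fB, -⟩, ⟨nB, -⟩, hCB, hCB', hne, -⟩ := hVE S
  obtain ⟨-, -, hGs, -, -, hsub, -, mGs, -⟩ := hVF S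
  have zM : ZFm (· ∈ S.M) := S.zfc.toZFCm.toZFm
  have zN' : ZFm (· ∈ S.N') := S.zN'.toZFm
  have zN : ZFm (· ∈ S.N) := S.zN.toZFm
  have hNM : ∀ x ∈ S.N, x ∈ S.M := fun x hx => zM.trans _ S.mN _ hx
  -- the forcing notions
  have c0' : pos S.B' ∈ S.N' := hWF.2.2.1.1 (· ∈ S.N') zN' (fun _ => S.B') (fun _ => mB')
  have r0' : incl S.B' ∈ S.N' := hWF.2.2.2.1.1 (· ∈ S.N') zN' (fun _ => S.B') (fun _ => mB')
  have cM : pos S.B ∈ S.M := hWF.2.2.1.1 (· ∈ S.M) zM (fun _ => S.B) (fun _ => S.mB)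
  have rM : incl S.B ∈ S.M := hWF.2.2.2.1.1 (· ∈ S.M) zM (fun _ => S.B) (fun _ => S.mB)
  have cN : pos S.B ∈ S.N := hWF.2.2.1.1 (· ∈ S.N) zN (fun _ => S.B) (fun _ => nB)
  have rN : incl S.B ∈ S.N := hWF.2.2.2.1.1 (· ∈ S.N) zN (fun _ => S.B) (fun _ => nB)
  have e1 : app S.f (pos S.B') = pos S.B := by
    have h1 := hLET ZFm _ hWF.2.2.1 S.N' S.N S.f S.el zN' zN (fun _ => S.B') (fun _ => mB')
    simp only [fB] at h1
    exact h1
  have e2 : app S.f (incl S.B') = incl S.B := by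
    have h1 := hLET ZFm _ hWF.2.2.2.1 S.N' S.N S.f S.el zN' zN (fun _ => S.B') (fun _ => mB')
    simp only [fB] at h1
    exact h1
  have po' : IsPo (pos S.B') (incl S.B') := hWG.2.2.1 (· ∈ S.N') S.B' hCB' hne
  have po : IsPo (pos S.B) (incl S.B) := hWG.2.2.1 (· ∈ S.M) S.B S.cba S.ne
  have genN : Gen (· ∈ S.N) (pos S.B) (incl S.B) S.G :=
    ⟨S.gen.1, fun D hD hd => S.gen.2 D (hNM D hD) hd⟩
  obtain ⟨g, hg, hg1, hg2, hg3⟩ := hFO S.N' S.N S.f (pos S.B') (incl S.B') (pos S.B) (incl S.B)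
    S.Gs S.G S.el zN' zN c0' r0' e1 e2 po' po hGs genN hsub
  -- the extensions
  obtain ⟨zW, hMW, hGW⟩ := hFI (· ∈ S.M) (pos S.B) (incl S.B) S.G zM cM rM po S.gen
  obtain ⟨-, hNN', hGs'⟩ := hFI (· ∈ S.N') (pos S.B') (incl S.B') S.Gs zN' c0' r0' po' hGs
  obtain ⟨-, hNN, hGN⟩ := hFI (· ∈ S.N) (pos S.B) (incl S.B) S.G zN cN rN po genN
  have hgW : Ext (· ∈ S.M) S.G g := by
    have T := Tm.image (Tm.var 0) (Tm.pair (Tm.val (Tm.var 2) (Tm.var 0))
      (Tm.val (Tm.var 3) (Tm.app (Tm.var 4) (Tm.var 0))))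
    have h1 := T.1 (Ext (· ∈ S.M) S.G) zW
      (fun i => match i with
        | 0 => S.N'
        | 1 => S.Gs
        | 2 => S.G
        | _ => S.f)
      (fun i => by
        rcases i with _ | _ | _ | i
        · exact hMW _ S.mN'
        · exact hMW _ mGs
        · exact hGW
        · exact S.mf)
    have h2 : g = imS S.N' fun x => ZFSet.pair (val S.Gs x) (val S.G (app S.f x)) := by
      ext z
      rw [mem_imS]
      constructor
      · intro hz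
        obtain ⟨a, ha, b, hb, hab⟩ := ZFSet.mem_prod.1 (hg.func.1 hz)
        rw [hab] at hz
        have h3 := (pair_mem_iff_app hg.func).1 hz
        obtain ⟨x, hx, hxa⟩ := mem_extS.1 ha
        refine ⟨x, hx, ?_⟩
        rw [hab, h3.2, hxa, hg3 x hx]
      · rintro ⟨x, hx, rfl⟩
        rw [← hg3 x hx]
        exact pair_app_mem hg.func (mem_extS.2 ⟨x, hx, rfl⟩)
    rw [h2]
    exact h1
  have z2' : ZFCm (· ∈ extS S.N' S.Gs) := by
    rw [← ext_eq_extS]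
    exact hFJ (· ∈ S.N') (pos S.B') (incl S.B') S.Gs S.zN' c0' r0' po' hGs
  have z2 : ZFCm (· ∈ extS S.N S.G) := by
    rw [← ext_eq_extS]
    exact hFJ (· ∈ S.N) (pos S.B) (incl S.B) S.G S.zN cN rN po genN
  have hh : ∀ (N A : V) (τ : Ordinal.{0}), ZFm (· ∈ N) → A ∈ N → N = LA A τ →
      ∀ α : Ordinal.{0}, α.toZFSet ∈ N ↔ α < τ := by
    intro N A τ hN hA hNA
    subst hNA
    exact (hLHE ∅ A τ ZFSet.isTransitive_empty hN hN.mempty hA).2
  refine ⟨g, hg, hgW, hg1, hg2, hg3, ?_, ?_, ?_, ?_, z2', z2, ?_, ?_⟩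
  · intro x hx
    exact mem_extS.2 (hNN' x hx)
  · intro x hx
    exact mem_extS.2 (hNN x hx)
  · exact mem_extS.2 hGs'
  · exact mem_extS.2 hGN
  · intro α
    rw [← hh S.N' S.A' S.τ' zN' S.mA' S.eN' α]
    constructor
    · intro h
      exact hFL.2.2 (· ∈ S.N') S.Gs α zN' (mem_extS.1 h)
    · intro h
      exact mem_extS.2 (hNN' _ h)
  · intro α
    rw [← hh S.N S.A S.τ zN S.mA S.eN α]
    constructor
    · intro h
      exact hFL.2.2 (· ∈ S.N) S.G α zN (mem_extS.1 h)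
    · intro h
      exact mem_extS.2 (hNN _ h)

end SF.H20
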