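import Pool.Agent.H3.SF.Targets

/-!
Row W6 of spw_modules (helper20): the mean of the limit law.
-/

set_option autoImplicit false

open Finset MeasureTheory Filter Topology

namespace Pool.Agent.H20.SF

open Pool.Agent.H3.SF Pool.Agent.H99.SQ

theorem pf_W6 (hW2 : T_W2) (hW4 : T_W4) (hW6A : T_W6A) (hW6B : T_W6B) : T_W6 := by
  obtain ⟨-, -, -, -, -, h4⟩ := hW4
  have h1 : Tendsto (fun Y => ∫ ω, dY Y ω ∂PM) atTop (𝓝 (∫ ω, Dd ω ∂PM)) :=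
    h4 (fun x => x) continuous_id
  have h2 : ∀ Y, ∫ ω, dY Y ω ∂PM = ∏ p ∈ FF Y, (1 - 1 / (p : ℝ) ^ 2) := by
    intro Y
    rw [← hW6A Y]
    exact hW2 Y Y (fun _ b => b) le_rfl
  have h3 : Tendsto (fun Y => ∫ ω, dY Y ω ∂PM) atTop (𝓝 (8 / Real.pi ^ 2)) := by
    rw [show (fun Y => ∫ ω, dY Y ω ∂PM) = fun Y : ℕ => ∏ p ∈ FF Y, (1 - 1 / (p : ℝ) ^ 2) from
      funext h2]
    exact hW6B
  exact tendsto_nhds_unique h1 h3

end Pool.Agent.H20.SF
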